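import Mathlib
import Pool.Agent.MP_e18349_al.TT.Defs
import Pool.Agent.MP_e18349_al.TT.ME

namespace Pool.Agent.Results.MP_e18349_al.TTCounterexample

open CategoryTheory Limits MonoidalCategory Pretriangulated Pool.Agent.MP_e18349_al.TT

universe w

/-- There is a tensor-triangulated category `T`, namely the derived category of a commutative
ring, that is rigidly-compactly generated and homologically stratified, satisfies the Nerves of
Steel conjecture, and whose Balmer spectrum is not weakly noetherian. -/
theorem result : ∃ (T : Type 1) (_ : Category.{0} T) (_ : Preadditive T) (_ : HasCoproducts.{0} T)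
    (_ : HasZeroObject T) (_ : HasShift T ℤ) (_ : ∀ n : ℤ, (shiftFunctor T n).Additive)
    (_ : Pretriangulated T) (_ : IsTriangulated T) (_ : MonoidalCategory T)
    (_ : SymmetricCategory T) (_ : MonoidalPreadditive T) (_ : MonoidalClosed T)
    (_ : (curriedTensor T).CommShift₂Int),
    IsTT T ∧ IsDerived.{w} T ∧ RigidlyCompactlyGenerated T ∧ HStratified T ∧ NervesOfSteel T ∧
      ¬ WeaklyNoetherian (Spc T) := by
  refine ⟨CT (KK Pool.Agent.MP_e18349_al.Axes), inferInstance, inferInstance, inferInstance,
    inferInstance, inferInstance, inferInstance, inferInstance, inferInstance, inferInstance,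
    inferInstance, inferInstance, inferInstance, inferInstance, ⟨fun _ => inferInstance,
    fun _ => inferInstance, ct_rightUnitor_commShift k_rightUnitor_commShift,
    ct_assoc_commShift k_assoc_commShift, ct_braiding_commShift k_braiding_commShift,
    ct_pre_triangle⟩, ⟨Pool.Agent.MP_e18349_al.Axes, inferInstance, ?_⟩, main_axes⟩
  obtain ⟨P, hP, G, hG, hK, h, ⟨e⟩⟩ := ct_model (R := Pool.Agent.MP_e18349_al.Axes)
  refine ⟨P, hP, G, hG, hK, h, ?_⟩
  intro _
  exact ⟨(Cel _).ι ⋙ DerivedCategory.Qh, inferInstance, inferInstance, ct_isEquivalence,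
    ⟨(Functor.associator _ _ _).symm ≪≫ Functor.isoWhiskerRight e _ ≪≫ Functor.associator _ _ _ ≪≫
      Functor.isoWhiskerLeft _ (DerivedCategory.quotientCompQhIso _)⟩⟩

end Pool.Agent.Results.MP_e18349_al.TTCounterexample
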